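import Mathlib

/-!
# H85.TK.Count: helper12's count rule

One-sided machine: free lines `[0, c)`, bases `[c, c + r)`, `w : ℕ → Bool`. The free zeros are released
one after the other; at the step `T < r` the base `c + T` is marked iff it is a one and the number of
released unused free zeros is at least the threshold `dd`.
-/

set_option autoImplicit false

namespace Pool.Agent.H85.TK

open Finset

/-- the number of zeros in `[a, b)` -/
def zs (w : ℕ → Bool) (a b : ℕ) : ℕ := ((Ico a b).filter fun i => w i = false).card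

theorem be_ex (I : Finset ℕ) (r T : ℕ) : ∃ g, T < g ∧ (g ∉ I ∨ r ≤ g) :=
  ⟨max (T + 1) r, lt_of_lt_of_le (Nat.lt_succ_self T) (le_max_left _ _), Or.inr (le_max_right _ _)⟩

/-- the end of the block of `T` -/
def be (I : Finset ℕ) (r T : ℕ) : ℕ := Nat.find (be_ex I r T)

theorem be_gt (I : Finset ℕ) (r T : ℕ) : T < be I r T := (Nat.find_spec (be_ex I r T)).1

theorem be_le {I : Finset ℕ} {r T : ℕ} (h : T < r) : be I r T ≤ r :=
  Nat.find_min' (be_ex I r T) ⟨h, Or.inr le_rfl⟩

theorem be_mem {I : Finset ℕ} {r T g : ℕ} (h : T < g) (h' : g < be I r T) : g ∈ I ∧ g < r := by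
  have h1 := Nat.find_min (be_ex I r T) h'
  by_contra h2
  apply h1
  refine ⟨h, ?_⟩
  by_cases h3 : g ∈ I
  · right
    by_contra h4
    exact h2 ⟨h3, by omega⟩
  · exact Or.inl h3

theorem be_succ_lt {I : Finset ℕ} {r T : ℕ} (h : T + 1 ∈ I) (h' : T + 1 < r) : T + 1 < be I r T := by
  have h1 := be_gt I r T
  have h2 := (Nat.find_spec (be_ex I r T)).2
  by_contra h3
  have h4 : be I r T = T + 1 := by omega
  have h5 : Nat.find (be_ex I r T) = T + 1 := h4
  rw [h5] at h2
  rcases h2 with h2 | h2
  · exact h2 h
  · omega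

theorem be_succ {I : Finset ℕ} {r T : ℕ} (h : T + 1 < be I r T) : be I r (T + 1) = be I r T := by
  apply le_antisymm
  · exact Nat.find_min' (be_ex I r (T + 1)) ⟨h, (Nat.find_spec (be_ex I r T)).2⟩
  · exact Nat.find_min' (be_ex I r T) ⟨(Nat.lt_succ_self T).trans (be_gt I r (T + 1)),
      (Nat.find_spec (be_ex I r (T + 1))).2⟩

/-- the word is constant on the blocks -/
def Cb (c r : ℕ) (I : Finset ℕ) (w : ℕ → Bool) : Prop :=
  ∀ g ∈ I, 0 < g → g < c + r → w g = w (g - 1)

theorem cb_const {c r : ℕ} {I : Finset ℕ} {w : ℕ → Bool} (hw : Cb c r I w) {T i : ℕ} (h : T ≤ i)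
    (h' : i < be I r T) : w i = w T := by
  induction i, h using Nat.le_induction with
  | base => rfl
  | succ i h ih =>
    have h1 := be_mem (Nat.lt_succ_of_le h) h'
    have h2 := hw (i + 1) h1.1 (Nat.succ_pos i) (by omega)
    rw [h2, Nat.add_sub_cancel]
    exact ih (by omega)

/-- the release at the step `T` -/
def rel (c : ℕ) (w : ℕ → Bool) (T : ℕ) : ℕ := if T < c ∧ w T = false then 1 else 0

theorem rel_le (c : ℕ) (w : ℕ → Bool) (T : ℕ) : rel c w T ≤ 1 := by
  unfold rel
  split_ifs <;> omega

/-- the number of steps in `[a, b)` without release -/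
def nr (c : ℕ) (w : ℕ → Bool) (a b : ℕ) : ℕ := ∑ i ∈ Ico a b, (1 - rel c w i)

/-- the threshold -/
def dd (c : ℕ) (E : ℕ → ℕ) (w : ℕ → Bool) (T : ℕ) : ℕ := 1 + nr c w (T + 1) (E T)

/-- the number of the released unused free zeros before the step `T` -/
def st (c : ℕ) (E : ℕ → ℕ) (w : ℕ → Bool) : ℕ → ℕ
  | 0 => 0
  | T + 1 => st c E w T + rel c w T -
      if w (c + T) = true ∧ dd c E w T ≤ st c E w T + rel c w T then 1 else 0

/-- the number available at the step `T` -/
def av (c : ℕ) (E : ℕ → ℕ) (w : ℕ → Bool) (T : ℕ) : ℕ := st c E w T + rel c w T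

/-- the mark at the step `T` -/
def mt (c : ℕ) (E : ℕ → ℕ) (w : ℕ → Bool) (T : ℕ) : ℕ :=
  if w (c + T) = true ∧ dd c E w T ≤ av c E w T then 1 else 0

/-- an unmarked one at the step `T` -/
def um (c : ℕ) (E : ℕ → ℕ) (w : ℕ → Bool) (T : ℕ) : ℕ :=
  if w (c + T) = true ∧ av c E w T < dd c E w T then 1 else 0

theorem dd_pos (c : ℕ) (E : ℕ → ℕ) (w : ℕ → Bool) (T : ℕ) : 1 ≤ dd c E w T := by
  unfold dd
  omega

theorem st_succ (c : ℕ) (E : ℕ → ℕ) (w : ℕ → Bool) (T : ℕ) :
    st c E w (T + 1) + mt c E w T = av c E w T := by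
  have h1 := dd_pos c E w T
  have h2 : st c E w (T + 1) = av c E w T - mt c E w T := rfl
  rw [h2]
  have h3 : mt c E w T ≤ av c E w T := by
    unfold mt
    split_ifs with h
    · exact h1.trans h.2
    · exact Nat.zero_le _
  omega

theorem mt_le (c : ℕ) (E : ℕ → ℕ) (w : ℕ → Bool) (T : ℕ) : mt c E w T ≤ 1 := by
  unfold mt
  split_ifs <;> omega

section blocks

variable {c r : ℕ} {I : Finset ℕ} {w w' : ℕ → Bool}

theorem dd_succ {T : ℕ} (h : T + 1 < be I r T) :
    dd c (be I r) w T = dd c (be I r) w (T + 1) + (1 - rel c w (T + 1)) := by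
  unfold dd nr
  rw [be_succ h, Finset.sum_eq_sum_Ico_succ_bot h]
  omega

theorem dd_last {T : ℕ} (h : be I r T = T + 1) : dd c (be I r) w T = 1 := by
  unfold dd nr
  rw [h, Ico_self, sum_empty, Nat.add_zero]

/-- threshold and availability along a block -/
theorem block_step {T : ℕ} (h : T + 1 < be I r T) (h' : dd c (be I r) w T ≤ av c (be I r) w T) :
    dd c (be I r) w (T + 1) ≤ av c (be I r) w (T + 1) := by
  have h1 := dd_succ (c := c) (w := w) h
  have h2 := st_succ c (be I r) w T
  have h3 := mt_le c (be I r) w T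
  have h4 := rel_le c w (T + 1)
  have h5 : av c (be I r) w (T + 1) = st c (be I r) w (T + 1) + rel c w (T + 1) := rfl
  omega

theorem rel_mono {T : ℕ} (h : T < c → w T = true → w' T = true) : rel c w' T ≤ rel c w T := by
  unfold rel
  by_cases h1 : T < c ∧ w' T = false
  · rw [if_pos h1]
    have h2 : w T = false := by
      by_contra h3
      have h4 : w T = true := by simpa using h3
      rw [h h1.1 h4] at h1
      exact absurd h1.2 (by simp)
    rw [if_pos ⟨h1.1, h2⟩]
  · rw [if_neg h1]
    exact Nat.zero_le _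

theorem dd_cmp (hw : Cb c r I w) (hw' : Cb c r I w') {T : ℕ}
    (h : ∀ i < c, w i = true → w' i = true) :
    dd c (be I r) w T ≤ dd c (be I r) w' T ∧ (dd c (be I r) w T = dd c (be I r) w' T ∨
      (rel c w T = 1 ∧ rel c w' T = 0)) := by
  constructor
  · unfold dd nr
    have : ∑ i ∈ Ico (T + 1) (be I r T), (1 - rel c w i) ≤
        ∑ i ∈ Ico (T + 1) (be I r T), (1 - rel c w' i) := by
      refine sum_le_sum fun i _ => ?_
      have := rel_mono (c := c) (w := w) (w' := w') (T := i) (h i)
      omega
    omega
  · by_cases h1 : ∀ i ∈ Ico (T + 1) (be I r T), rel c w i = rel c w' i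
    · left
      unfold dd nr
      rw [sum_congr rfl fun i hi => by rw [h1 i hi]]
    · right
      push Not at h1
      obtain ⟨i, hi, hne⟩ := h1
      rw [mem_Ico] at hi
      have h2 := rel_mono (c := c) (w := w) (w' := w') (T := i) (h i)
      have h3 := rel_le c w i
      have h4 : rel c w i = 1 := by omega
      have h5 : rel c w' i = 0 := by omega
      have e1 := cb_const hw (by omega : T ≤ i) hi.2
      have e2 := cb_const hw' (by omega : T ≤ i) hi.2
      unfold rel at h4 h5 ⊢
      by_cases h6 : i < c ∧ w i = false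
      · have h7 : ¬ (i < c ∧ w' i = false) := by
          intro h8
          rw [if_pos h8] at h5
          omega
        rw [if_pos ⟨by omega, by rw [← e1]; exact h6.2⟩, if_neg]
        · exact ⟨rfl, rfl⟩
        · rintro ⟨_, h9⟩
          exact h7 ⟨h6.1, by rw [e2]; exact h9⟩
      · rw [if_neg h6] at h4
        omega

/-- (M) -/
theorem st_mono (hw : Cb c r I w) (hw' : Cb c r I w') (T : ℕ)
    (h : ∀ i < c + T, w i = true → w' i = true) :
    st c (be I r) w' T ≤ st c (be I r) w T := by
  induction T with
  | zero => exact le_rfl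
  | succ T ih =>
    have h1 := ih fun i hi => h i (by omega)
    have h2 := rel_mono (c := c) (w := w) (w' := w') (T := T) fun hT => h T (by omega)
    obtain ⟨h3, h4⟩ := dd_cmp (T := T) hw hw' fun i hi => h i (by omega)
    have h5 := st_succ c (be I r) w T
    have h6 := st_succ c (be I r) w' T
    have h7 := h (c + T) (by omega)
    have h8 : av c (be I r) w T = st c (be I r) w T + rel c w T := rfl
    have h9 : av c (be I r) w' T = st c (be I r) w' T + rel c w' T := rfl
    have h10 := mt_le c (be I r) w T
    by_cases h11 : mt c (be I r) w T = 1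
    · by_cases h12 : mt c (be I r) w' T = 1
      · omega
      · have h13 : w (c + T) = true ∧ dd c (be I r) w T ≤ av c (be I r) w T := by
          by_contra h14
          unfold mt at h11
          rw [if_neg h14] at h11
          omega
        have h15 : ¬ dd c (be I r) w' T ≤ av c (be I r) w' T := by
          intro h16
          apply h12
          unfold mt
          rw [if_pos ⟨h7 h13.1, h16⟩]
        rcases h4 with h4 | ⟨h4, h4'⟩
        · omega
        · omega
    · omega

/-- monotone availability with respect to the threshold -/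
theorem avail_mono (hw : Cb c r I w) (hw' : Cb c r I w') (T : ℕ)
    (h : ∀ i < c + T, w i = true → w' i = true)
    (h' : dd c (be I r) w' T ≤ av c (be I r) w' T) :
    dd c (be I r) w T ≤ av c (be I r) w T := by
  have h1 := st_mono hw hw' T h
  have h2 := rel_mono (c := c) (w := w) (w' := w') (T := T) fun hT => h T (by omega)
  obtain ⟨h3, _⟩ := dd_cmp (T := T) hw hw' fun i hi => h i (by omega)
  unfold av at h' ⊢
  omega

end blocks

/-! ### counting -/

section count

variable {c r : ℕ} {I : Finset ℕ} {w : ℕ → Bool}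

theorem zs_eq_sum (w : ℕ → Bool) (a b : ℕ) :
    zs w a b = ∑ i ∈ Ico a b, if w i = false then 1 else 0 := by
  unfold zs
  rw [card_filter]

theorem zs_add {a b d : ℕ} (h : a ≤ b) (h' : b ≤ d) (w : ℕ → Bool) :
    zs w a b + zs w b d = zs w a d := by
  rw [zs_eq_sum, zs_eq_sum, zs_eq_sum, sum_Ico_consecutive _ h h']

theorem zs_le (w : ℕ → Bool) (a b : ℕ) : zs w a b ≤ b - a := by
  unfold zs
  refine (card_filter_le _ _).trans ?_
  rw [Nat.card_Ico]

theorem zs_succ (w : ℕ → Bool) {a b : ℕ} (h : a ≤ b) :
    zs w a (b + 1) = zs w a b + if w b = false then 1 else 0 := by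
  rw [← zs_add h (Nat.le_succ b), zs_eq_sum w b (b + 1), Nat.Ico_succ_singleton, sum_singleton]

theorem zs_bot (w : ℕ → Bool) {a b : ℕ} (h : a < b) :
    zs w a b = (if w a = false then 1 else 0) + zs w (a + 1) b := by
  rw [← zs_add (Nat.le_succ a) h, zs_eq_sum w a (a + 1), Nat.Ico_succ_singleton, sum_singleton]

theorem zs_empty (w : ℕ → Bool) {a b : ℕ} (h : b ≤ a) : zs w a b = 0 := by
  unfold zs
  rw [Ico_eq_empty_of_le h, filter_empty, card_empty]

theorem nr_add {a b d : ℕ} (h : a ≤ b) (h' : b ≤ d) (c : ℕ) (w : ℕ → Bool) :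
    nr c w a b + nr c w b d = nr c w a d := by
  unfold nr
  rw [sum_Ico_consecutive _ h h']

/-- balance of the machine -/
theorem st_balance (c : ℕ) (E : ℕ → ℕ) (w : ℕ → Bool) (T : ℕ) :
    st c E w T + ∑ i ∈ range T, mt c E w i = ∑ i ∈ range T, rel c w i := by
  induction T with
  | zero => simp [st]
  | succ T ih =>
    rw [sum_range_succ, sum_range_succ]
    have h1 := st_succ c E w T
    have h2 : av c E w T = st c E w T + rel c w T := rfl
    omega

theorem rel_sum_lt {b : ℕ} (h : b ≤ c) : ∑ i ∈ range b, rel c w i = zs w 0 b := by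
  rw [zs_eq_sum, ← range_eq_Ico]
  refine sum_congr rfl fun i hi => ?_
  have := mem_range.1 hi
  unfold rel
  by_cases h1 : w i = false
  · rw [if_pos ⟨by omega, h1⟩, if_pos h1]
  · rw [if_neg (fun h2 => h1 h2.2), if_neg h1]

theorem rel_sum_ge {b : ℕ} (h : c ≤ b) : ∑ i ∈ range b, rel c w i = zs w 0 c := by
  rw [← rel_sum_lt le_rfl, ← sum_range_add_sum_Ico _ h]
  have : ∑ k ∈ Ico c b, rel c w k = 0 := by
    refine sum_eq_zero fun i hi => ?_
    have := mem_Ico.1 hi
    unfold rel
    rw [if_neg (by omega)]
  omega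

/-- the set of the marked bases -/
def X (c r : ℕ) (I : Finset ℕ) (w : ℕ → Bool) : Finset ℕ :=
  (range r).filter fun T => w (c + T) = true ∧ dd c (be I r) w T ≤ av c (be I r) w T

theorem card_X {a b : ℕ} (h' : b ≤ r) :
    ((X c r I w).filter fun T => a ≤ T ∧ T < b).card = ∑ i ∈ Ico a b, mt c (be I r) w i := by
  have e : ((X c r I w).filter fun T => a ≤ T ∧ T < b) =
      (Ico a b).filter fun T => w (c + T) = true ∧ dd c (be I r) w T ≤ av c (be I r) w T := by
    ext T
    unfold X
    simp only [mem_filter, mem_range, mem_Ico]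
    constructor
    · rintro ⟨⟨h1, h2⟩, h3⟩
      exact ⟨h3, h2⟩
    · rintro ⟨h1, h2⟩
      exact ⟨⟨by omega, h2⟩, h1⟩
  rw [e, card_filter]
  rfl

theorem X_sub : X c r I w ⊆ range r := filter_subset _ _

theorem X_one {T : ℕ} (h : T ∈ X c r I w) : w (c + T) = true := by
  unfold X at h
  exact (mem_filter.1 h).2.1

/-- (U) -/
theorem X_up {g : ℕ} (hg : g ∈ I) (h0 : 0 < g) (hgr : g < r) (h : g - 1 ∈ X c r I w)
    (h1 : w (c + g) = true) : g ∈ X c r I w := by
  obtain ⟨T, rfl⟩ : ∃ T, g = T + 1 := ⟨g - 1, by omega⟩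
  rw [Nat.add_sub_cancel] at h
  unfold X at h ⊢
  rw [mem_filter] at h ⊢
  exact ⟨mem_range.2 hgr, h1, block_step (be_succ_lt hg hgr) h.2.2⟩

/-- (PAIR) -/
theorem X_pair {u v : ℕ → Bool} (hu : Cb c r I u) (hv : Cb c r I v) {g : ℕ} (hg : g ∈ I)
    (h0 : 0 < g) (hgr : g < r) (hle : ∀ i < c + g - 1, v i = true → u i = true)
    (h : g - 1 ∈ X c r I u) (h1 : v (c + g) = true) : g ∈ X c r I v := by
  obtain ⟨T, rfl⟩ : ∃ T, g = T + 1 := ⟨g - 1, by omega⟩
  rw [Nat.add_sub_cancel] at h
  unfold X at h ⊢
  rw [mem_filter] at h ⊢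
  exact ⟨mem_range.2 hgr, h1, block_step (be_succ_lt hg hgr)
    (avail_mono hv hu T (fun i hi => hle i (by omega)) h.2.2)⟩

/-- (b) in the form of a balance -/
theorem st_bal {y : ℕ} (hy : y ≤ r) : st c (be I r) w y +
    ((X c r I w).filter fun T => 0 ≤ T ∧ T < y).card = ∑ i ∈ range y, rel c w i := by
  rw [card_X hy, ← range_eq_Ico]
  exact st_balance c (be I r) w y

theorem X_b {b : ℕ} (hb : b ≤ c) (hbr : b ≤ r) : st c (be I r) w b +
    ((X c r I w).filter fun T => 0 ≤ T ∧ T < b).card = zs w 0 b := by
  rw [st_bal hbr, rel_sum_lt hb]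

theorem X_c {y : ℕ} (hb : c ≤ y) (hy : y ≤ r) : st c (be I r) w y +
    ((X c r I w).filter fun T => 0 ≤ T ∧ T < y).card = zs w 0 c := by
  rw [st_bal hy, rel_sum_ge hb]

/-- (a) -/
theorem X_a (hw : Cb c r I w) {y : ℕ} (hy : y ≤ r) :
    zs w 0 c ≤ ((X c r I w).filter fun T => 0 ≤ T ∧ T < y).card + zs w y (y + c) := by
  rw [card_X hy]
  rcases Nat.eq_zero_or_pos c with hc | hc
  · subst hc
    rw [zs_empty w le_rfl]
    exact Nat.zero_le _
  induction y with
  | zero => simp
  | succ T ih =>
    have h1 := ih (by omega)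
    have e1 : ∑ i ∈ Ico 0 (T + 1), mt c (be I r) w i =
        ∑ i ∈ Ico 0 T, mt c (be I r) w i + mt c (be I r) w T :=
      sum_Ico_succ_top (Nat.zero_le T) _
    have e2 := zs_bot w (a := T) (b := T + 1 + c) (by omega)
    have e3 := zs_succ w (a := T) (b := T + c) (by omega)
    have e4 : T + 1 + c = T + c + 1 := by omega
    rw [e4] at e2 ⊢
    rw [e1]
    by_cases hT : w T = false
    · by_cases hc1 : w (T + c) = false
      · rw [if_pos hT] at e2
        rw [if_pos hc1] at e3
        omega
      · rw [if_pos hT] at e2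
        rw [if_neg hc1] at e3
        have hc2 : w (c + T) = true := by
          rw [add_comm]
          simpa using hc1
        by_cases hm : dd c (be I r) w T ≤ av c (be I r) w T
        · have hm1 : mt c (be I r) w T = 1 := by
            unfold mt
            rw [if_pos ⟨hc2, hm⟩]
          omega
        · -- not marked: the inequality is strict
          suffices h2 : zs w 0 c < ∑ i ∈ Ico 0 T, mt c (be I r) w i + zs w T (T + c) by omega
          by_contra h3
          apply hm
          have h4 := st_balance c (be I r) w T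
          rw [range_eq_Ico] at h4
          have hE : be I r T ≤ T + c := by
            by_contra h5
            have h6 := cb_const hw (by omega : T ≤ T + c) (by omega : T + c < be I r T)
            exact hc1 (by rw [h6]; exact hT)
          have hE1 := be_gt I r T
          -- the releases
          have h7 : ∑ i ∈ Ico 0 T, rel c w i + rel c w T + zs w (T + 1) c = zs w 0 c := by
            by_cases h8 : T + 1 ≤ c
            · have h9 := rel_sum_lt (w := w) (c := c) (b := T + 1) h8
              rw [sum_range_succ, range_eq_Ico] at h9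
              rw [h9, zs_add (Nat.zero_le _) h8]
            · have h9 := rel_sum_ge (w := w) (c := c) (b := T + 1) (by omega)
              rw [sum_range_succ, range_eq_Ico] at h9
              rw [h9, zs_empty w (by omega : c ≤ T + 1), Nat.add_zero]
          have h10 : dd c (be I r) w T ≤ 1 + zs w (max (T + 1) c) (T + c) := by
            unfold dd
            have h11 : nr c w (T + 1) (be I r T) ≤ zs w (max (T + 1) c) (T + c) := by
              by_cases h12 : be I r T ≤ max (T + 1) c
              · have h13 : nr c w (T + 1) (be I r T) = 0 := by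
                  unfold nr
                  refine sum_eq_zero fun i hi => ?_
                  rw [mem_Ico] at hi
                  have h14 := cb_const hw (by omega : T ≤ i) hi.2
                  unfold rel
                  rw [if_pos ⟨by omega, by rw [h14]; exact hT⟩, Nat.sub_self]
                omega
              · rw [← nr_add (le_max_left (T + 1) c) (by omega : max (T + 1) c ≤ be I r T)]
                have h13 : nr c w (T + 1) (max (T + 1) c) = 0 := by
                  unfold nr
                  refine sum_eq_zero fun i hi => ?_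
                  rw [mem_Ico] at hi
                  have h14 := cb_const hw (by omega : T ≤ i) (by omega : i < be I r T)
                  unfold rel
                  rw [if_pos ⟨by omega, by rw [h14]; exact hT⟩, Nat.sub_self]
                rw [h13, Nat.zero_add, ← zs_add (by omega : max (T + 1) c ≤ be I r T) hE]
                refine le_trans ?_ (Nat.le_add_right _ _)
                rw [zs_eq_sum]
                unfold nr
                refine sum_le_sum fun i hi => ?_
                rw [mem_Ico] at hi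
                have h14 := cb_const hw (by omega : T ≤ i) (by omega : i < be I r T)
                rw [if_pos (by rw [h14]; exact hT)]
                omega
            omega
          have h15 : zs w (T + 1) c + zs w (max (T + 1) c) (T + c) = zs w (T + 1) (T + c) := by
            by_cases h16 : T + 1 ≤ c
            · rw [max_eq_right h16, zs_add h16 (by omega)]
            · rw [max_eq_left (by omega), zs_empty w (by omega : c ≤ T + 1), Nat.zero_add]
          have h17 := zs_bot w (a := T) (b := T + c) (by omega)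
          rw [if_pos hT] at h17
          unfold av
          omega
    · rw [if_neg hT] at e2
      have := Nat.zero_le (if w (T + c) = false then 1 else 0)
      omega

/-- the unmarked ones after `T` -/
theorem um_le (T : ℕ) (hT : T < r) : ∑ i ∈ Ico T r, um c (be I r) w i ≤
    (dd c (be I r) w T - av c (be I r) w T) + nr c w (be I r T) r := by
  -- backward induction
  obtain ⟨n, hn⟩ : ∃ n, r = T + 1 + n := ⟨r - (T + 1), by omega⟩
  induction n generalizing T with
  | zero =>
    have h1 := be_gt I r T
    have h2 := be_le (I := I) hT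
    have h3 : be I r T = T + 1 := by omega
    rw [dd_last h3]
    have h4 : Ico T r = {T} := by
      rw [hn]
      exact Nat.Ico_succ_singleton T
    rw [h4, sum_singleton]
    unfold um
    rw [dd_last h3]
    split_ifs with h5
    · omega
    · exact Nat.zero_le _
  | succ n ih =>
    have h1 := ih (T + 1) (by omega) (by omega)
    have h2 : ∑ i ∈ Ico T r, um c (be I r) w i =
        um c (be I r) w T + ∑ i ∈ Ico (T + 1) r, um c (be I r) w i :=
      sum_eq_sum_Ico_succ_bot (by omega) _
    have hE := be_gt I r T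
    have hE1 := be_gt I r (T + 1)
    have hE2 := be_le (I := I) (r := r) (T := T + 1) (by omega)
    have h3 := st_succ c (be I r) w T
    have h4 : av c (be I r) w (T + 1) = st c (be I r) w (T + 1) + rel c w (T + 1) := rfl
    have h5 := rel_le c w (T + 1)
    have h6 := mt_le c (be I r) w T
    rw [h2]
    by_cases h7 : T + 1 < be I r T
    · have h8 := dd_succ (c := c) (w := w) h7
      rw [be_succ h7] at h1
      by_cases h9 : w (c + T) = true ∧ av c (be I r) w T < dd c (be I r) w T
      · have h10 : um c (be I r) w T = 1 := by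
          unfold um
          rw [if_pos h9]
        have h11 : mt c (be I r) w T = 0 := by
          unfold mt
          rw [if_neg (by rintro ⟨_, h12⟩; omega)]
        omega
      · have h10 : um c (be I r) w T = 0 := by
          unfold um
          rw [if_neg h9]
        omega
    · have h8 : be I r T = T + 1 := by omega
      have h9 : dd c (be I r) w T = 1 := dd_last h8
      have h10 : um c (be I r) w T ≤ dd c (be I r) w T - av c (be I r) w T := by
        unfold um
        split_ifs with h11
        · omega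
        · exact Nat.zero_le _
      have h12 : dd c (be I r) w (T + 1) - av c (be I r) w (T + 1) + nr c w (be I r (T + 1)) r ≤
          nr c w (T + 1) r := by
        rw [← nr_add (by omega : T + 1 ≤ be I r (T + 1)) hE2]
        have h13 : nr c w (T + 1) (be I r (T + 1)) =
            (1 - rel c w (T + 1)) + nr c w (T + 1 + 1) (be I r (T + 1)) :=
          sum_eq_sum_Ico_succ_bot hE1 _
        have h14 : dd c (be I r) w (T + 1) = 1 + nr c w (T + 1 + 1) (be I r (T + 1)) := rfl
        omega
      rw [h8]
      omega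

/-- marks, unmarked ones and zeros fill the interval -/
theorem fill {a b : ℕ} : ∑ i ∈ Ico a b, mt c (be I r) w i +
    ∑ i ∈ Ico a b, um c (be I r) w i + zs w (c + a) (c + b) = b - a := by
  have e : zs w (c + a) (c + b) = ∑ i ∈ Ico a b, if w (c + i) = false then 1 else 0 := by
    rw [zs_eq_sum, add_comm c a, add_comm c b, ← sum_Ico_add]
  rw [e, ← sum_add_distrib, ← sum_add_distrib]
  have : ∀ i ∈ Ico a b, mt c (be I r) w i + um c (be I r) w i +
      (if w (c + i) = false then 1 else 0) = 1 := by
    intro i _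
    unfold mt um
    by_cases h1 : w (c + i) = true
    · by_cases h2 : dd c (be I r) w i ≤ av c (be I r) w i
      · rw [if_pos ⟨h1, h2⟩, if_neg (by rintro ⟨_, h3⟩; omega), if_neg (by rw [h1]; simp)]
      · rw [if_neg (fun h3 => h2 h3.2), if_pos ⟨h1, by omega⟩, if_neg (by rw [h1]; simp)]
    · rw [if_neg (fun h3 => h1 h3.1), if_neg (fun h3 => h1 h3.1), if_pos (by simpa using h1)]
  rw [sum_congr rfl this, sum_const, Nat.card_Ico, smul_eq_mul, mul_one]

/-- an unmarked one bounds the rest by the zeros behind it -/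
theorem st_end_le (hcr : c ≤ r) {T : ℕ} (hT : T < r) (h1 : w (c + T) = true)
    (h2 : av c (be I r) w T < dd c (be I r) w T) :
    st c (be I r) w r ≤ zs w (c + T) (c + r) := by
  have h3 := um_le (c := c) (I := I) (w := w) T hT
  have hE := be_gt I r T
  have hE2 := be_le (I := I) hT
  have h4 : dd c (be I r) w T + nr c w (be I r T) r = 1 + nr c w (T + 1) r := by
    unfold dd
    rw [← nr_add (by omega : T + 1 ≤ be I r T) hE2]
    omega
  have h5 := st_balance c (be I r) w T
  have h6 := st_balance c (be I r) w r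
  have h7 : ∑ i ∈ range T, mt c (be I r) w i + ∑ i ∈ Ico T r, mt c (be I r) w i =
      ∑ i ∈ range r, mt c (be I r) w i := sum_range_add_sum_Ico _ hT.le
  have h8 : ∑ i ∈ range T, rel c w i + ∑ i ∈ Ico T r, rel c w i = ∑ i ∈ range r, rel c w i :=
    sum_range_add_sum_Ico _ hT.le
  have h9 : ∑ i ∈ Ico T r, rel c w i = rel c w T + ∑ i ∈ Ico (T + 1) r, rel c w i :=
    sum_eq_sum_Ico_succ_bot hT _
  have h10 : ∑ i ∈ Ico (T + 1) r, rel c w i + nr c w (T + 1) r = r - (T + 1) := by
    unfold nr
    rw [← sum_add_distrib]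
    have : ∀ i ∈ Ico (T + 1) r, rel c w i + (1 - rel c w i) = 1 := fun i _ => by
      have := rel_le c w i
      omega
    rw [sum_congr rfl this, sum_const, Nat.card_Ico, smul_eq_mul, mul_one]
  have h11 := fill (c := c) (r := r) (I := I) (w := w) (a := T) (b := r)
  have h12 : av c (be I r) w T = st c (be I r) w T + rel c w T := rfl
  omega

/-- (E) in the form of the states -/
theorem st_e (hw : Cb c r I w) (hcr : c ≤ r) {b : ℕ} (hb : b ≤ c) :
    st c (be I r) w r ≤ st c (be I r) w b + zs w (r + b) (r + c) := by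
  by_cases hex : ∃ T, r + b ≤ c + T ∧ T < r ∧ w (c + T) = true ∧
      av c (be I r) w T < dd c (be I r) w T
  · obtain ⟨T, h1, h2, h3, h4⟩ := hex
    have h5 := st_end_le hcr h2 h3 h4
    have h6 := zs_add (w := w) h1 (by omega : c + T ≤ c + r)
    rw [add_comm r c]
    omega
  · push Not at hex
    have h1 := X_b (c := c) (r := r) (I := I) (w := w) hb (by omega)
    have h2 := X_c (c := c) (r := r) (I := I) (w := w) hcr le_rfl
    rw [card_X (by omega)] at h1
    rw [card_X le_rfl] at h2
    have h3 : ∑ i ∈ Ico 0 b, mt c (be I r) w i + ∑ i ∈ Ico b r, mt c (be I r) w i =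
        ∑ i ∈ Ico 0 r, mt c (be I r) w i := sum_Ico_consecutive _ (Nat.zero_le _) (by omega)
    have h4 : ∑ i ∈ Ico b (r + b - c), mt c (be I r) w i + ∑ i ∈ Ico (r + b - c) r,
        mt c (be I r) w i = ∑ i ∈ Ico b r, mt c (be I r) w i :=
      sum_Ico_consecutive _ (by omega) (by omega)
    have h5 := fill (c := c) (r := r) (I := I) (w := w) (a := r + b - c) (b := r)
    have h6 : ∑ i ∈ Ico (r + b - c) r, um c (be I r) w i = 0 := by
      refine sum_eq_zero fun i hi => ?_
      rw [mem_Ico] at hi
      unfold um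
      rw [if_neg]
      rintro ⟨h7, h8⟩
      have := hex i (by omega) hi.2 h7
      omega
    have h7 : zs w 0 b + zs w b c = zs w 0 c := zs_add (Nat.zero_le _) hb w
    have h8 := zs_le w b c
    have e1 : c + (r + b - c) = r + b := by omega
    rw [e1, add_comm c r] at h5
    omega

/-- (E) -/
theorem X_e (hw : Cb c r I w) (hcr : c ≤ r) {b : ℕ} (hb : b ≤ c) :
    zs w b c ≤ ((X c r I w).filter fun T => b ≤ T ∧ T < r).card + zs w (r + b) (r + c) := by
  have h0 := st_e hw hcr hb
  have h1 := X_b (c := c) (r := r) (I := I) (w := w) hb (by omega)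
  have h2 := X_c (c := c) (r := r) (I := I) (w := w) hcr le_rfl
  rw [card_X (by omega)] at h1
  rw [card_X le_rfl] at h2
  rw [card_X le_rfl]
  have h3 : ∑ i ∈ Ico 0 b, mt c (be I r) w i + ∑ i ∈ Ico b r, mt c (be I r) w i =
      ∑ i ∈ Ico 0 r, mt c (be I r) w i := sum_Ico_consecutive _ (Nat.zero_le _) (by omega)
  have h7 : zs w 0 b + zs w b c = zs w 0 c := zs_add (Nat.zero_le _) hb w
  omega

/-! ### windows -/

/-- the windows of one kind: the last `st r` zeros among the last `c` lines -/
def Wm (c r : ℕ) (I : Finset ℕ) (w : ℕ → Bool) : Finset ℕ :=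
  (range c).filter fun f => w (r + f) = false ∧ zs w (r + f) (r + c) ≤ st c (be I r) w r

theorem Wm_sub : Wm c r I w ⊆ range c := filter_subset _ _

theorem Wm_zero {f : ℕ} (h : f ∈ Wm c r I w) : w (r + f) = false := by
  unfold Wm at h
  exact (mem_filter.1 h).2.1

theorem Wm_count {b : ℕ} (hb : b ≤ c) : ((Wm c r I w).filter fun f => f < b).card +
    min (st c (be I r) w r) (zs w (r + b) (r + c)) = min (st c (be I r) w r) (zs w r (r + c)) := by
  have e : ∀ b ≤ c, ((Wm c r I w).filter fun f => f < b).card =
      ∑ f ∈ range b, if w (r + f) = false ∧ zs w (r + f) (r + c) ≤ st c (be I r) w r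
        then 1 else 0 := by
    intro b hb
    rw [← card_filter]
    congr 1
    ext f
    unfold Wm
    simp only [mem_filter, mem_range]
    constructor
    · rintro ⟨⟨_, h2⟩, h3⟩
      exact ⟨h3, h2⟩
    · rintro ⟨h1, h2⟩
      exact ⟨⟨by omega, h2⟩, h1⟩
  rw [e b hb]
  induction b with
  | zero => simp
  | succ b ih =>
    have h1 := ih (by omega)
    rw [sum_range_succ]
    have h2 := zs_bot w (a := r + b) (b := r + c) (by omega)
    have h3 : r + (b + 1) = r + b + 1 := rfl
    rw [h3]
    by_cases h4 : w (r + b) = false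
    · rw [if_pos h4] at h2
      by_cases h5 : zs w (r + b) (r + c) ≤ st c (be I r) w r
      · rw [if_pos ⟨h4, h5⟩]
        omega
      · rw [if_neg (fun h => h5 h.2)]
        omega
    · rw [if_neg h4] at h2
      rw [if_neg (fun h => h4 h.1)]
      omega

theorem Wm_card (hw : Cb c r I w) (hcr : c ≤ r) : (Wm c r I w).card = st c (be I r) w r := by
  have h1 := Wm_count (c := c) (r := r) (I := I) (w := w) le_rfl
  have h2 : ((Wm c r I w).filter fun f => f < c) = Wm c r I w := by
    refine filter_true_of_mem fun f hf => ?_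
    exact mem_range.1 (Wm_sub hf)
  rw [h2, zs_empty w le_rfl] at h1
  have h3 := X_a hw (y := r) le_rfl
  have h4 := X_c (c := c) (r := r) (I := I) (w := w) hcr le_rfl
  omega

/-- (1) the total number of marks and windows -/
theorem card_total (hw : Cb c r I w) (hcr : c ≤ r) :
    (X c r I w).card + (Wm c r I w).card = zs w 0 c := by
  have h4 := X_c (c := c) (r := r) (I := I) (w := w) hcr le_rfl
  have h2 : ((X c r I w).filter fun T => 0 ≤ T ∧ T < r) = X c r I w := by
    refine filter_true_of_mem fun f hf => ?_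
    exact ⟨Nat.zero_le _, mem_range.1 (X_sub hf)⟩
  rw [h2] at h4
  rw [Wm_card hw hcr]
  omega

/-- (d) heads -/
theorem Wm_head (hw : Cb c r I w) (hcr : c ≤ r) {b : ℕ} (hb : b ≤ c) :
    ((Wm c r I w).filter fun f => f < b).card +
      ((X c r I w).filter fun T => 0 ≤ T ∧ T < b).card ≤ zs w 0 b := by
  have h1 := Wm_count (c := c) (r := r) (I := I) (w := w) hb
  have h2 := st_e hw hcr hb
  have h3 := X_b (c := c) (r := r) (I := I) (w := w) hb (by omega)
  have h4 := X_a hw (y := r) le_rfl
  have h5 := X_c (c := c) (r := r) (I := I) (w := w) hcr le_rfl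
  omega

/-- (c) tails -/
theorem Wm_tail {b : ℕ} : ((Wm c r I w).filter fun f => b ≤ f).card ≤ zs w (r + b) (r + c) := by
  unfold zs
  refine card_le_card_of_injOn (fun f => r + f) ?_ ?_
  · intro f hf
    have h1 := mem_filter.1 hf
    have h2 := mem_range.1 (Wm_sub h1.1)
    simp only [coe_filter, mem_Ico, Set.mem_ofPred_eq]
    exact ⟨⟨by omega, by omega⟩, Wm_zero h1.1⟩
  · intro f _ f' _ h
    simp only at h
    omega

/-- the faces of the windows -/
theorem Wm_up (hw : Cb c r I w) {g : ℕ} (hg : g ∈ I) (h0 : r < g) (hgr : g < r + c)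
    (h : g - r - 1 ∈ Wm c r I w) : g - r ∈ Wm c r I w := by
  obtain ⟨f, rfl⟩ : ∃ f, g = r + (f + 1) := ⟨g - r - 1, by omega⟩
  have e1 : r + (f + 1) - r - 1 = f := by omega
  have e2 : r + (f + 1) - r = f + 1 := by omega
  rw [e1] at h
  rw [e2]
  unfold Wm at h ⊢
  rw [mem_filter, mem_range] at h ⊢
  have h1 := hw (r + (f + 1)) hg (by omega) (by omega)
  have e3 : r + (f + 1) - 1 = r + f := by omega
  rw [e3, h.2.1] at h1
  refine ⟨by omega, h1, ?_⟩
  have h2 := zs_add (w := w) (by omega : r + f ≤ r + (f + 1)) (by omega : r + (f + 1) ≤ r + c)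
  omega

/-! ### constant words -/

theorem const_one (h : ∀ i < r + c, w i = true) : X c r I w = ∅ ∧ Wm c r I w = ∅ := by
  have h1 : ∀ T ≤ r, st c (be I r) w T = 0 := by
    intro T hT
    have h2 := st_balance c (be I r) w T
    have h3 : ∑ i ∈ range T, rel c w i = 0 := by
      refine sum_eq_zero fun i hi => ?_
      have := mem_range.1 hi
      unfold rel
      rw [if_neg]
      rintro ⟨_, h4⟩
      rw [h i (by omega)] at h4
      exact absurd h4 (by simp)
    omega
  constructor
  · rw [eq_empty_iff_forall_notMem]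
    intro T hT
    unfold X at hT
    rw [mem_filter, mem_range] at hT
    have h2 := dd_pos c (be I r) w T
    have h3 : av c (be I r) w T = st c (be I r) w T + rel c w T := rfl
    have h4 : rel c w T = 0 := by
      unfold rel
      rw [if_neg]
      rintro ⟨h5, h6⟩
      rw [h T (by omega)] at h6
      exact absurd h6 (by simp)
    have h5 := h1 T hT.1.le
    omega
  · rw [eq_empty_iff_forall_notMem]
    intro f hf
    have h2 := mem_range.1 (Wm_sub hf)
    have h3 := Wm_zero hf
    rw [h (r + f) (by omega)] at h3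
    exact absurd h3 (by simp)

theorem const_zero (hw : Cb c r I w) (hcr : c ≤ r) (h : ∀ i < r + c, w i = false) :
    X c r I w = ∅ ∧ Wm c r I w = range c := by
  have h0 : X c r I w = ∅ := by
    rw [eq_empty_iff_forall_notMem]
    intro T hT
    have h2 := mem_range.1 (X_sub hT)
    have h3 := X_one hT
    rw [h (c + T) (by omega)] at h3
    exact absurd h3 (by simp)
  refine ⟨h0, ?_⟩
  have h1 := card_total hw hcr
  rw [h0, card_empty, Nat.zero_add] at h1
  have h2 : zs w 0 c = c := by
    unfold zs
    rw [filter_true_of_mem, Nat.card_Ico, Nat.sub_zero]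
    intro i hi
    rw [mem_Ico] at hi
    exact h i (by omega)
  exact eq_of_subset_of_card_le Wm_sub (by rw [card_range, h1, h2])

end count

end Pool.Agent.H85.TK
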